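import Pool.Agent.W868.Defs

/-!
# Ramsey finiteness and canonical Ramsey finiteness in a model of set theory: definitions

Everything is evaluated in a transitive model `M` of ZF. Functions and relations are sets of
ordered pairs, `{a, b}` is the two element set if `a` and `b` are different.
-/

set_option autoImplicit false

namespace Pool.Agent.K7.H48.AF

open Pool.Agent.W868
open ZFSet (pair)

/-- In `M`, the set `z` is finite: some function of `M` is a bijection from `z` to a natural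
number. -/
def FinIn (M : Set ZFSet.{0}) (z : ZFSet.{0}) : Prop := ∃ m : ℕ, ∃ f ∈ M, IsBij z (nat m) f

/-- `c` is a function from the set of the two element subsets of `X` to the set `C`. -/
def IsColouring (X C c : ZFSet.{0}) : Prop :=
  (∀ z ∈ c, ∃ a ∈ X, ∃ b ∈ X, a ≠ b ∧ ∃ k ∈ C, z = pair {a, b} k) ∧
    ∀ a ∈ X, ∀ b ∈ X, a ≠ b → ∃! k, pair {a, b} k ∈ c

/-- `M` satisfies `RT²ₙ(X)`: for every function `c` from the two element subsets of `X` to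
`n = {0, ..., n - 1}` there are an infinite subset `Y` of `X` and a value `k` that `c` takes on all
two element subsets of `Y`. -/
def RT (M : Set ZFSet.{0}) (n : ℕ) (X : ZFSet.{0}) : Prop :=
  ∀ c ∈ M, IsColouring X (nat n) c → ∃ Y ∈ M, Y ⊆ X ∧ ¬ FinIn M Y ∧
    ∃ k, ∀ a ∈ Y, ∀ b ∈ Y, a ≠ b → pair {a, b} k ∈ c

/-- The relation `L` is a (strict) linear order of `Y`. -/
def IsLinearOrder (Y L : ZFSet.{0}) : Prop :=
  (∀ u ∈ Y, pair u u ∉ L) ∧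
    (∀ u ∈ Y, ∀ v ∈ Y, ∀ w ∈ Y, pair u v ∈ L → pair v w ∈ L → pair u w ∈ L) ∧
    ∀ u ∈ Y, ∀ v ∈ Y, u ≠ v → pair u v ∈ L ∨ pair v u ∈ L

/-- The function `f` has the same value at `{a₁, b₁}` and at `{a₂, b₂}`. -/
def Same (f a₁ b₁ a₂ b₂ : ZFSet.{0}) : Prop := ∃ k, pair {a₁, b₁} k ∈ f ∧ pair {a₂, b₂} k ∈ f

/-- All `a₁ < b₁` and `a₂ < b₂` in `Y` (where `<` is the relation `L`) have the property `Q`. -/
def Increasing (Y L : ZFSet.{0}) (Q : ZFSet.{0} → ZFSet.{0} → ZFSet.{0} → ZFSet.{0} → Prop) :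
    Prop :=
  ∀ a₁ ∈ Y, ∀ b₁ ∈ Y, ∀ a₂ ∈ Y, ∀ b₂ ∈ Y, pair a₁ b₁ ∈ L → pair a₂ b₂ ∈ L → Q a₁ b₁ a₂ b₂

/-- The function `f` is canonical on `(Y, L)`. -/
def IsCanonical (Y L f : ZFSet.{0}) : Prop :=
  Increasing Y L (fun a₁ b₁ a₂ b₂ => Same f a₁ b₁ a₂ b₂) ∨
  Increasing Y L (fun a₁ b₁ a₂ b₂ => Same f a₁ b₁ a₂ b₂ ↔ a₁ = a₂) ∨
  Increasing Y L (fun a₁ b₁ a₂ b₂ => Same f a₁ b₁ a₂ b₂ ↔ b₁ = b₂) ∨
  Increasing Y L (fun a₁ b₁ a₂ b₂ => Same f a₁ b₁ a₂ b₂ ↔ a₁ = a₂ ∧ b₁ = b₂)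

/-- `M` satisfies `CRT(X)`: for every function `f` from the two element subsets of `X` to a set
`C` there are an infinite subset `Y` of `X` and a linear order `L` of `Y` such that `f` is
canonical on `(Y, L)`. -/
def CRT (M : Set ZFSet.{0}) (X : ZFSet.{0}) : Prop :=
  ∀ C ∈ M, ∀ f ∈ M, IsColouring X C f → ∃ Y ∈ M, Y ⊆ X ∧ ¬ FinIn M Y ∧
    ∃ L ∈ M, IsLinearOrder Y L ∧ IsCanonical Y L f

end Pool.Agent.K7.H48.AF
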