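import Pool.Agent.K7.H48.AF.Nam
import Pool.Agent.K7.H48.AF.Defs

/-!
# The model, and Ramsey's theorem for the set of the atoms

The first part is adapted from the starting files `R602/RC/Mod.lean` and `R602/RC/Fin.lean`.
-/

set_option autoImplicit false
set_option linter.unusedSectionVars false
set_option linter.unusedVariables false
set_option linter.unreachableTactic false
set_option linter.unusedTactic false

namespace Pool.Agent.K7.H48.AF

open Pool.Agent.W868 Pool.Agent.W868.PName Pool.Agent.R598.SY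
open ZFSet (pair)

/-- The names. -/
noncomputable def Ns0 : ℕ → Set (PName P)
  | 0 => {AN}
  | 1 => Set.range bN
  | 2 => Set.range xN
  | 3 => Set.range YN
  | 4 => Set.range fun t : K × ℕ => Sys.nm P (dn (Co t.1 t.2 true))
  | 5 => Set.range fun t : ℕ × Finset (ℕ × Bool) × ℕ => Sys.nm P (dn (Dn t.1 t.2.1 t.2.2))
  | 6 => Set.range fun t : K × K => Sys.nm P (dn (Df t.1 t.2))
  | _ => ∅

theorem cnt_Ns0 (n : ℕ) : (Ns0 n).Countable := by
  match n with
  | 0 => exact Set.countable_singleton _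
  | 1 => exact Set.countable_range _
  | 2 => exact Set.countable_range _
  | 3 => exact Set.countable_range _
  | 4 => exact Set.countable_range _
  | 5 => exact Set.countable_range _
  | 6 => exact Set.countable_range _
  | _ + 7 => exact Set.countable_empty

/-- The properties of the package. -/
structure Good (π : Pkg P) (r : X) : Prop where
  cld : sys.Cld π
  gpt : Gpt π r
  gen : Gen r
  an : AN ∈ π.N
  bn : ∀ i, bN i ∈ π.N
  xn : ∀ a, xN a ∈ π.N
  yn : ∀ S, YN S ∈ π.N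

theorem exists_good : ∃ π r, Good π r := by
  classical
  have hcR : (insert rB sys.rules : Set (Rule P)).Countable := by
    refine Set.Countable.insert _ (Set.Finite.countable ?_)
    unfold Sys.rules
    exact Set.toFinite _
  obtain ⟨π, hA, -, hcl⟩ := exists_pkg (insert rB sys.rules) hcR
    (⋃ n, Ns0 n) (Set.countable_iUnion cnt_Ns0) ⊤
  have hN : ∀ n, ∀ a ∈ Ns0 n, a ∈ π.N := fun n a ha => hA (Set.mem_iUnion.2 ⟨n, ha⟩)
  have hom : (check ZFSet.omega : PName P) ∈ π.N := π.om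
  have hR : ∀ ρ ∈ (insert rB sys.rules : Set (Rule P)), ∀ v ∈ π.N, ∀ u ∈ π.N, ∀ k,
      (ρ ⟨0, .mem (Sum.inr v) (Sum.inr u), Fin.elim0, π.g k⟩).1 ∈ π.N := fun ρ hρ v hv u hu k =>
    (hcl ρ hρ _ (query2 hv hu (π.gC k))).1
  have h4 : ∀ (a : K) (k : ℕ), Sys.nm P (dn (Co a k true)) ∈ π.N := fun a k =>
    hN 4 _ ⟨(a, k), rfl⟩
  have h5 : ∀ i s k, Sys.nm P (dn (Dn i s k)) ∈ π.N := fun i s k => hN 5 _ ⟨(i, s, k), rfl⟩
  have h6 : ∀ a b, Sys.nm P (dn (Df a b)) ∈ π.N := fun a b => hN 6 _ ⟨(a, b), rfl⟩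
  obtain ⟨r, hr⟩ := exists_point (π := π) h4
    (fun k => hR rB (Set.mem_insert _ _) _ hom _ hom k)
  have hdns : ∀ O, Op O → Sys.nm P (dn O) ∈ π.N →
      (∀ U, Op U → U.Nonempty → (U ∩ O).Nonempty) → r ∈ O := by
    intro O hO hn hd
    rcases tr_dec hn hO with h | ⟨m, hm⟩
    · exact (hr _ hO).2 h
    · have h2 := hd (π.g m).1 (π.g m).2.1 (π.g m).2.2
      rw [hm] at h2
      exact absurd h2 Set.not_nonempty_empty
  refine ⟨π, r,
    { cld := fun ρ hρ => hcl ρ (Set.mem_insert_of_mem _ hρ)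
      gpt := hr
      gen := ⟨fun i s hs k => ?_, fun a b hab => ?_⟩
      an := hN 0 _ rfl
      bn := fun i => hN 1 _ ⟨i, rfl⟩
      xn := fun a => hN 2 _ ⟨a, rfl⟩
      yn := fun a => hN 3 _ ⟨a, rfl⟩ }⟩
  · obtain ⟨q, hq⟩ := hs
    obtain ⟨⟨j, hj⟩, h2⟩ := Set.mem_iUnion.1 (hdns _ (op_Dn i s k) (h5 i s k)
      fun U hU hne => dns_Dn i s k hq hU hne)
    exact ⟨j, hj, h2⟩
  · exact hdns _ (op_Df a b) (h6 a b) fun U hU hne => dns_Df hab hU hne

/-- The sets with the support `(S, E)`. -/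
def Nsp (π : Pkg P) (S : Finset ℕ) (E : Finset K) : Set ZFSet.{0} :=
  {u | ∃ t ∈ π.N, sys.HS t ∧ sys.Fix (fixE S E) t ∧ π.val t = u}

theorem fix_mono {S S' : Finset ℕ} {E E' : Finset K} (hS : S ⊆ S') (hE : E ⊆ E') {t : PName P}
    (h : sys.Fix (fixE S E) t) : sys.Fix (fixE S' E') t := h.mono fun _ hg => fixE_mono hS hE hg

theorem exists_Nsp {π : Pkg P} {u : ZFSet.{0}} (hu : u ∈ sys.Ms π) : ∃ S E,
    (∀ a ∈ E, a.1 ∈ S) ∧ u ∈ Nsp π S E := by
  classical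
  obtain ⟨t, ⟨ht, hts⟩, rfl⟩ := hu
  obtain ⟨_, ⟨S, E, rfl⟩, hE⟩ := hts.sym
  exact ⟨S ∪ E.image Prod.fst, E, fun a ha => Finset.mem_union_right _
    (Finset.mem_image_of_mem _ ha), t, ht, hts, fix_mono Finset.subset_union_left subset_rfl hE, rfl⟩

/-! ### Finite sets -/

theorem mem_nat' {m : ℕ} {z : ZFSet.{0}} : z ∈ nat m ↔ ∃ k < m, z = nat k := by
  induction m with
  | zero =>
    constructor
    · intro hz
      exact absurd hz (ZFSet.notMem_empty _)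
    · rintro ⟨k, hk, -⟩
      omega
  | succ m ih =>
    change z ∈ insert (nat m) (nat m) ↔ _
    rw [ZFSet.mem_insert_iff, ih]
    constructor
    · rintro (rfl | ⟨k, hk, rfl⟩)
      · exact ⟨m, Nat.lt_succ_self _, rfl⟩
      · exact ⟨k, by omega, rfl⟩
    · rintro ⟨k, hk, rfl⟩
      rcases Nat.lt_succ_iff_lt_or_eq.1 hk with h | rfl
      · exact Or.inr ⟨k, h, rfl⟩
      · exact Or.inl rfl

theorem isBij_insert {Y f a : ZFSet.{0}} {n : ℕ} (h : IsBij Y (nat n) f) (ha : a ∉ Y) :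
    IsBij (insert a Y) (nat (n + 1)) (insert (pair a (nat n)) f) := by
  obtain ⟨⟨⟨h1, h2⟩, h3⟩, h4⟩ := h
  have hn : nat n ∉ nat n := ZFSet.mem_irrefl _
  have hin : ∀ x y, pair x y ∈ f → x ∈ Y ∧ y ∈ nat n := fun x y hxy => ZFSet.pair_mem_prod.1 (h1 hxy)
  have hmem : ∀ x y, pair x y ∈ insert (pair a (nat n)) f ↔ (x = a ∧ y = nat n) ∨ pair x y ∈ f := by
    intro x y
    rw [ZFSet.mem_insert_iff, ZFSet.pair_inj]
  refine ⟨⟨⟨?_, ?_⟩, ?_⟩, ?_⟩
  · intro z hz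
    rcases ZFSet.mem_insert_iff.1 hz with rfl | hz
    · exact ZFSet.pair_mem_prod.2 ⟨ZFSet.mem_insert_iff.2 (Or.inl rfl),
        ZFSet.mem_insert_iff.2 (Or.inl rfl)⟩
    · obtain ⟨x, hx, y, hy, rfl⟩ := ZFSet.mem_prod.1 (h1 hz)
      exact ZFSet.pair_mem_prod.2 ⟨ZFSet.mem_insert_iff.2 (Or.inr hx),
        ZFSet.mem_insert_iff.2 (Or.inr hy)⟩
  · intro z hz
    rcases ZFSet.mem_insert_iff.1 hz with rfl | hz
    · refine ⟨nat n, (hmem _ _).2 (Or.inl ⟨rfl, rfl⟩), fun w hw => ?_⟩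
      rcases (hmem _ _).1 hw with ⟨-, h⟩ | h
      · exact h
      · exact absurd (hin _ _ h).1 ha
    · obtain ⟨w, hw, hu⟩ := h2 z hz
      refine ⟨w, (hmem _ _).2 (Or.inr hw), fun w' hw' => ?_⟩
      rcases (hmem _ _).1 hw' with ⟨h, -⟩ | h
      · exact absurd hz (h ▸ ha)
      · exact hu w' h
  · intro x y c hx hy
    rcases (hmem _ _).1 hx with ⟨hxa, hc⟩ | hx' <;> rcases (hmem _ _).1 hy with ⟨hya, hc'⟩ | hy'
    · exact hxa.trans hya.symm
    · exact absurd (hc ▸ (hin _ _ hy').2) hn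
    · exact absurd (hc' ▸ (hin _ _ hx').2) hn
    · exact h3 x y c hx' hy'
  · intro b hb
    rcases ZFSet.mem_insert_iff.1 hb with rfl | hb
    · exact ⟨a, ZFSet.mem_insert_iff.2 (Or.inl rfl), (hmem _ _).2 (Or.inl ⟨rfl, rfl⟩)⟩
    · obtain ⟨x, hx, hxb⟩ := h4 b hb
      exact ⟨x, ZFSet.mem_insert_iff.2 (Or.inr hx), (hmem _ _).2 (Or.inr hxb)⟩

theorem cardIn_of {M : Set ZFSet.{0}} (hM : IsZF M) (s : Finset ZFSet.{0}) :
    (∀ z ∈ s, z ∈ M) → ∃ Y ∈ M, (∀ z, z ∈ Y ↔ z ∈ s) ∧ ∃ f ∈ M, IsBij Y (nat s.card) f := by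
  classical
  induction s using Finset.induction_on with
  | empty =>
    intro _
    refine ⟨∅, hM.empty_mem, fun z => ?_, ∅, hM.empty_mem, ⟨⟨?_, ?_⟩, ?_⟩, ?_⟩
    · exact ⟨fun h => absurd h (ZFSet.notMem_empty _), fun h => absurd h (Finset.notMem_empty _)⟩
    · intro z hz
      exact absurd hz (ZFSet.notMem_empty _)
    · intro z hz
      exact absurd hz (ZFSet.notMem_empty _)
    · intro x y c hx
      exact absurd hx (ZFSet.notMem_empty _)
    · intro b hb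
      exact absurd hb (ZFSet.notMem_empty _)
  | insert a s ha ih =>
    intro hz
    obtain ⟨Y, hY, h1, f, hf, h2⟩ := ih fun z hz' => hz z (Finset.mem_insert_of_mem hz')
    have haM : a ∈ M := hz a (Finset.mem_insert_self _ _)
    refine ⟨insert a Y, hM.insert_mem haM hY, fun z => ?_, ?_⟩
    · rw [ZFSet.mem_insert_iff, h1, Finset.mem_insert]
    · rw [Finset.card_insert_of_notMem ha]
      exact ⟨insert (pair a (nat s.card)) f, hM.insert_mem (hM.pair_mem haM (hM.nat_mem _)) hf,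
        isBij_insert h2 (by rw [h1]; exact ha)⟩

theorem finite_iff {M : Set ZFSet.{0}} (hM : IsZF M) {z : ZFSet.{0}} (hz : z ∈ M) :
    ¬ FinIn M z ↔ {v | v ∈ z}.Infinite := by
  constructor
  · intro h hfin
    obtain ⟨Y, hY, h1, f, hf, h2⟩ := cardIn_of hM hfin.toFinset fun v hv =>
      hM.trans _ hz _ (hfin.mem_toFinset.1 hv)
    have h3 : Y = z := by
      ext v
      rw [h1, hfin.mem_toFinset]
      rfl
    rw [h3] at h2
    exact h ⟨_, f, hf, h2⟩
  · rintro h ⟨m, f, -, ⟨⟨h1, h2⟩, h3⟩, h4⟩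
    have h5 : ∀ v : {v | v ∈ z}, ∃ k : Fin m, pair v.1 (nat k) ∈ f := by
      rintro ⟨v, hv⟩
      obtain ⟨b, hb, -⟩ := h2 v hv
      obtain ⟨k, hk, rfl⟩ := mem_nat'.1 (ZFSet.pair_mem_prod.1 (h1 hb)).2
      exact ⟨⟨k, hk⟩, hb⟩
    choose g hg using h5
    have hinj : Function.Injective g := by
      intro a b hab
      refine Subtype.ext (h3 _ _ _ (hg a) ?_)
      rw [hab]
      exact hg b
    exact h (Set.finite_coe_iff.1 (Finite.of_injective g hinj))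

/-! ### The atoms -/

section

variable {π : Pkg P} {r : X} (h : Good π r)

include h

theorem isZF : IsZF (sys.Ms π) := T_ZF.main T_TRU.main T_SEP.main _ _ π h.cld

theorem nN (m : ℕ) : (check (nat m) : PName P) ∈ π.N := π.nat_Z m

theorem nV (m : ℕ) : π.val (check (nat m)) = nat m := π.hat_nat m

theorem mem_xN {a : K} {w : ZFSet.{0}} : w ∈ π.val (xN a) ↔ ∃ n, r a n = true ∧ w = nat n := by
  unfold xN
  rw [val_fN h.gpt (fun k => nN h k) (fun k => op_Co _ _ _)]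
  refine exists_congr fun n => and_congr_right fun _ => ?_
  rw [nV h]

theorem xN_inj {a b : K} (hab : π.val (xN a) = π.val (xN b)) : a = b := by
  by_contra hne
  obtain ⟨n, hn⟩ := h.gen.g2 a b hne
  have key : ∀ a b : K, π.val (xN a) = π.val (xN b) → r a n = true → r b n = true := by
    intro a b hab ha
    have h1 : nat n ∈ π.val (xN a) := (mem_xN h).2 ⟨n, ha, rfl⟩
    rw [hab] at h1
    obtain ⟨m, hm, e⟩ := (mem_xN h).1 h1
    rwa [nat_injective e]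
  cases ha : r a n
  · cases hb : r b n
    · rw [ha, hb] at hn
      exact hn rfl
    · have h1 := key b a hab.symm hb
      rw [ha] at h1
      cases h1
  · have h1 := key a b hab ha
    rw [ha, h1] at hn
    exact hn rfl

theorem mem_bN {i : ℕ} {w : ZFSet.{0}} : w ∈ π.val (bN i) ↔ ∃ j, w = π.val (xN (i, j)) := by
  unfold bN
  rw [val_fN h.gpt (fun k => h.xn _) (fun k => op_univ)]
  simp

theorem bN_inj {i j : ℕ} (hij : π.val (bN i) = π.val (bN j)) : i = j := by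
  have h1 : π.val (xN (i, 0)) ∈ π.val (bN i) := (mem_bN h).2 ⟨0, rfl⟩
  rw [hij] at h1
  obtain ⟨k, hk⟩ := (mem_bN h).1 h1
  exact (Prod.mk.inj (xN_inj h hk)).1

theorem mem_AN {w : ZFSet.{0}} : w ∈ π.val AN ↔ ∃ i, w = π.val (bN i) := by
  unfold AN
  rw [val_fN h.gpt (fun k => h.bn _) (fun k => op_univ)]
  simp

theorem mem_YN {S : Finset ℕ} {w : ZFSet.{0}} :
    w ∈ π.val (YN S) ↔ ∃ i, i ∉ S ∧ w = π.val (bN i) := by
  unfold YN
  rw [val_fN h.gpt (fun k => h.bn _) (fun k => op_univ)]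
  constructor
  · rintro ⟨⟨i, hi⟩, -, rfl⟩
    exact ⟨i, hi, rfl⟩
  · rintro ⟨i, hi, rfl⟩
    exact ⟨⟨i, hi⟩, trivial, rfl⟩

theorem AN_mem : π.val AN ∈ sys.Ms π := ⟨_, ⟨h.an, hs_AN⟩, rfl⟩

theorem YN_mem (S : Finset ℕ) : π.val (YN S) ∈ sys.Ms π := ⟨_, ⟨h.yn S, hs_YN S⟩, rfl⟩

theorem YN_inf (S : Finset ℕ) : ¬ FinIn (sys.Ms π) (π.val (YN S)) := by
  rw [finite_iff (isZF h) (YN_mem h S)]
  have h1 : (Set.image (fun i => π.val (bN i)) {i | i ∉ S}).Infinite := by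
    refine Set.Infinite.image (fun i _ j _ hij => bN_inj h hij) ?_
    exact S.finite_toSet.infinite_compl
  refine h1.mono ?_
  rintro _ ⟨i, hi, rfl⟩
  exact (mem_YN h).2 ⟨i, hi, rfl⟩

/-- Moving a member of a set with the support `(S, E)`. -/
theorem moveN {S : Finset ℕ} {E : Finset K} (hES : ∀ a ∈ E, a.1 ∈ S) {v c : PName P}
    (hv : v ∈ π.N) (hc : c ∈ π.N) (hcf : sys.Fix (fixE S E) c) (hvc : π.val v ∈ π.val c)
    (α : Equiv.Perm ℕ) (hα : ∀ k ∈ S, α k = k) : ∃ g : G, (∀ k, bl g k = α k) ∧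
      r ∈ BV (act (sys.ac g) v) c := by
  obtain ⟨w, hw, hmv⟩ := move h.gen (op_BV v c) ((val_mem h.gpt hv hc).1 hvc)
  have hfix : ∀ a ∈ E, (lf α).1 a = a := fun a ha => by
    rw [lf_apply, hα _ (hES a ha)]
  obtain ⟨g, m1, m2, m3⟩ := hmv (lf α) E (fun d hd hdE => by
    rw [hfix _ hdE]
    exact hw d hd)
  have m2' : ∀ k, bl g k = α k := m2
  have hgb : ∀ k ∈ S, bl g k = k := fun k hk => by rw [m2', hα k hk]
  have hgE : ∀ a ∈ E, g.1 a = a := fun a ha => by rw [m1 a ha, hfix a ha]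
  rw [← BV_act, BV_congr (fun p => Feq.refl _ p) (hcf g ⟨hgb, hgE⟩)] at m3
  exact ⟨g, m2', m3⟩

/-- Moving a pair of atoms in a relation. -/
theorem move_pair {S : Finset ℕ} {E : Finset K} (hES : ∀ a ∈ E, a.1 ∈ S) {c : PName P}
    (hc : c ∈ π.N) (hcf : sys.Fix (fixE S E) c) {i j : ℕ}
    (hvc : pair (π.val (bN i)) (π.val (bN j)) ∈ π.val c)
    (α : Equiv.Perm ℕ) (hα : ∀ k ∈ S, α k = k) :
    pair (π.val (bN (α i))) (π.val (bN (α j))) ∈ π.val c := by
  have h1 : π.val (opN (bN i) (bN j)) ∈ π.val c := by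
    rwa [π.val_opN (h.bn i) (h.bn j)]
  obtain ⟨g, h2, h3⟩ := moveN h hES (π.opN_mem (h.bn i) (h.bn j)) hc hcf h1 α hα
  have h4 : ∀ p, Feq (act (sys.ac g) (opN (bN i) (bN j))) (opN (bN (α i)) (bN (α j))) p := by
    intro p
    rw [act_opN (sys.top g)]
    refine feq_opN ?_ ?_
    · have h5 := act_bN g i p
      rwa [h2] at h5
    · have h5 := act_bN g j p
      rwa [h2] at h5
  rw [BV_congr h4 (fun p => Feq.refl _ p)] at h3
  have h5 := (val_mem h.gpt (π.opN_mem (h.bn (α i)) (h.bn (α j))) hc).2 h3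
  rwa [π.val_opN (h.bn (α i)) (h.bn (α j))] at h5

/-- Moving a pair of atoms in a colouring. -/
theorem move_col {S : Finset ℕ} {E : Finset K} (hES : ∀ a ∈ E, a.1 ∈ S) {c : PName P}
    (hc : c ∈ π.N) (hcf : sys.Fix (fixE S E) c) {i j m : ℕ}
    (hvc : pair {π.val (bN i), π.val (bN j)} (nat m) ∈ π.val c)
    (α : Equiv.Perm ℕ) (hα : ∀ k ∈ S, α k = k) :
    pair {π.val (bN (α i)), π.val (bN (α j))} (nat m) ∈ π.val c := by
  have hp : ∀ i j, pairN (bN i) (bN j) ∈ π.N := fun i j => π.pairN_mem (h.bn i) (h.bn j)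
  have hq : ∀ i j, opN (pairN (bN i) (bN j)) (check (nat m)) ∈ π.N := fun i j =>
    π.opN_mem (hp i j) (nN h m)
  have hv : ∀ i j, π.val (opN (pairN (bN i) (bN j)) (check (nat m))) =
      pair {π.val (bN i), π.val (bN j)} (nat m) := fun i j => by
    rw [π.val_opN (hp i j) (nN h m), π.val_pairN (h.bn i) (h.bn j), nV h]
  have h1 : π.val (opN (pairN (bN i) (bN j)) (check (nat m))) ∈ π.val c := by
    rwa [hv]
  obtain ⟨g, h2, h3⟩ := moveN h hES (hq i j) hc hcf h1 α hα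
  have h4 : ∀ p, Feq (act (sys.ac g) (opN (pairN (bN i) (bN j)) (check (nat m))))
      (opN (pairN (bN (α i)) (bN (α j))) (check (nat m))) p := by
    intro p
    rw [act_opN (sys.top g), act_pairN (sys.top g), act_check (sys.top g)]
    refine feq_opN (feq_pairN ?_ ?_) (Feq.refl _ _)
    · have h5 := act_bN g i p
      rwa [h2] at h5
    · have h5 := act_bN g j p
      rwa [h2] at h5
  rw [BV_congr h4 (fun p => Feq.refl _ p)] at h3
  have h5 := (val_mem h.gpt (hq (α i) (α j)) hc).2 h3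
  rwa [hv] at h5

end

theorem exists_perm {S : Finset ℕ} {i j i' j' : ℕ} (hi : i ∉ S) (hj : j ∉ S) (hi' : i' ∉ S)
    (hj' : j' ∉ S) (hij : i ≠ j) (hij' : i' ≠ j') :
    ∃ α : Equiv.Perm ℕ, (∀ k ∈ S, α k = k) ∧ α i = i' ∧ α j = j' := by
  have h1 : Equiv.swap i i' j ∉ S := by
    by_cases h1 : j = i'
    · rw [h1, Equiv.swap_apply_right]
      exact hi
    · rw [Equiv.swap_apply_of_ne_of_ne (Ne.symm hij) h1]
      exact hj
  have h2 : Equiv.swap i i' j ≠ i' := by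
    intro h
    have h3 : Equiv.swap i i' j = Equiv.swap i i' i := by rw [h, Equiv.swap_apply_left]
    exact hij ((Equiv.swap i i').injective h3).symm
  refine ⟨Equiv.swap (Equiv.swap i i' j) j' * Equiv.swap i i', fun k hk => ?_, ?_, ?_⟩
  · have e1 : k ≠ i := fun e => hi (e ▸ hk)
    have e2 : k ≠ i' := fun e => hi' (e ▸ hk)
    have e3 : k ≠ Equiv.swap i i' j := fun e => h1 (e ▸ hk)
    have e4 : k ≠ j' := fun e => hj' (e ▸ hk)
    rw [Equiv.Perm.mul_apply, Equiv.swap_apply_of_ne_of_ne e1 e2,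
      Equiv.swap_apply_of_ne_of_ne e3 e4]
  · rw [Equiv.Perm.mul_apply, Equiv.swap_apply_left,
      Equiv.swap_apply_of_ne_of_ne (Ne.symm h2) hij']
  · rw [Equiv.Perm.mul_apply, Equiv.swap_apply_left]

/-! ### The two principles -/

section

variable {π : Pkg P} {r : X} (h : Good π r)

include h

/-- Ramsey's theorem for the set of the atoms. -/
theorem rt (n : ℕ) : RT (sys.Ms π) n (π.val AN) := by
  classical
  rintro c hcM ⟨hc1, hc2⟩
  obtain ⟨S, E, hES, t, ht, -, hfix, rfl⟩ := exists_Nsp hcM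
  obtain ⟨i, hi⟩ := S.exists_notMem
  obtain ⟨j, hj⟩ := (insert i S).exists_notMem
  rw [Finset.mem_insert, not_or] at hj
  have hA : ∀ i, π.val (bN i) ∈ π.val AN := fun i => (mem_AN h).2 ⟨i, rfl⟩
  have hne : ∀ {i j : ℕ}, i ≠ j → π.val (bN i) ≠ π.val (bN j) := fun hij e => hij (bN_inj h e)
  obtain ⟨k, hk, -⟩ := hc2 _ (hA i) _ (hA j) (hne (Ne.symm hj.1))
  obtain ⟨a, -, b, -, -, k', hk', e⟩ := hc1 _ hk
  obtain ⟨m, -, rfl⟩ := mem_nat'.1 ((ZFSet.pair_inj.1 e).2 ▸ hk')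
  refine ⟨_, YN_mem h S, fun w hw => ?_, YN_inf h S, nat m, ?_⟩
  · obtain ⟨i', -, rfl⟩ := (mem_YN h).1 hw
    exact hA i'
  · intro a ha b hb hab
    obtain ⟨i', hi', rfl⟩ := (mem_YN h).1 ha
    obtain ⟨j', hj', rfl⟩ := (mem_YN h).1 hb
    obtain ⟨α, h1, h2, h3⟩ := exists_perm hi hj.2 hi' hj' (Ne.symm hj.1)
      (fun e => hab (by rw [e]))
    have h4 := move_col h hES ht hfix hk α h1
    rwa [h2, h3] at h4

/-- No infinite set of atoms has a linear order. -/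
theorem no_order {Y L : ZFSet.{0}} (hY : Y ∈ sys.Ms π) (hYA : Y ⊆ π.val AN)
    (hYi : ¬ FinIn (sys.Ms π) Y) (hL : L ∈ sys.Ms π) (hYL : IsLinearOrder Y L) : False := by
  classical
  obtain ⟨S, E, hES, t, ht, -, hfix, rfl⟩ := exists_Nsp hL
  rw [finite_iff (isZF h) hY] at hYi
  have key : ∀ D : Finset ℕ, ∃ i, i ∉ D ∧ π.val (bN i) ∈ Y := by
    intro D
    by_contra hno
    push Not at hno
    refine hYi ((D.finite_toSet.image fun i => π.val (bN i)).subset fun w hw => ?_)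
    obtain ⟨i, rfl⟩ := (mem_AN h).1 (hYA hw)
    refine ⟨i, ?_, rfl⟩
    by_contra hiS
    exact hno i hiS hw
  obtain ⟨i, hi, hiY⟩ := key S
  obtain ⟨j, hj, hjY⟩ := key (insert i S)
  rw [Finset.mem_insert, not_or] at hj
  have hne : π.val (bN i) ≠ π.val (bN j) := fun e => hj.1 (bN_inj h e).symm
  have hsw : ∀ i j : ℕ, i ∉ S → j ∉ S → π.val (bN i) ∈ Y → π.val (bN j) ∈ Y →
      pair (π.val (bN i)) (π.val (bN j)) ∈ π.val t → False := by
    intro i j hi hj hiY hjY hij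
    have h1 := move_pair h hES ht hfix hij (Equiv.swap i j) (fun k hk =>
      Equiv.swap_apply_of_ne_of_ne (fun e => hi (e ▸ hk)) (fun e => hj (e ▸ hk)))
    rw [Equiv.swap_apply_left, Equiv.swap_apply_right] at h1
    exact hYL.1 _ hiY (hYL.2.1 _ hiY _ hjY _ hiY hij h1)
  rcases hYL.2.2 _ hiY _ hjY hne with h1 | h1
  · exact hsw i j hi hj.2 hiY hjY h1
  · exact hsw j i hj.2 hi hjY hiY h1

/-- There is a colouring of the pairs of atoms in the model. -/
theorem exists_col : ∃ C ∈ sys.Ms π, ∃ f ∈ sys.Ms π, IsColouring (π.val AN) C f := by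
  have hM := isZF h
  have hB := hM.base
  have hom := hM.infinity
  have hA := AN_mem h
  obtain ⟨A, hAA⟩ : ∃ A, A = π.val AN := ⟨_, rfl⟩
  rw [← hAA] at hA ⊢
  obtain ⟨PA, hPA, hPA'⟩ := hM.power _ hA
  have hC : ({∅} : ZFSet.{0}) ∈ sys.Ms π := hM.single_mem hM.empty_mem
  have h1 : Dfn (sys.Ms π) (sys.Ms π) fun w : Fin 2 → ZFSet.{0} =>
      ∃ a ∈ A, ∃ b ∈ A, a ≠ b ∧ w 0 = {a, b} := by
    (repeat' first
      | assumption
      | exact DfnF.proj _
      | exact DfnF.const (by assumption)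
      | apply hB.isFunc' | apply hB.isBij'
      | apply Dfn.iff | apply Dfn.not | apply Dfn.and | apply Dfn.or | apply Dfn.imp
      | apply hB.bex | apply hB.ball | apply hB.subset'
      | apply Dfn.ex | apply Dfn.all | apply Dfn.eq | apply Dfn.mem | apply hB.pair'
      | apply hB.upair' | apply hB.single')
  obtain ⟨f, hf, hf1, hf2⟩ := hM.rel_mem hPA hC
    (Q := fun u _ => ∃ a ∈ A, ∃ b ∈ A, a ≠ b ∧ u = {a, b}) h1
  refine ⟨_, hC, f, hf, fun z hz => ?_, fun a ha b hb hab => ⟨∅, ?_, fun k hk => ?_⟩⟩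
  · obtain ⟨u, hu, k, hk, rfl⟩ := ZFSet.mem_prod.1 (hf1 hz)
    obtain ⟨-, -, a, ha, b, hb, hab, rfl⟩ := (hf2 _ _).1 hz
    exact ⟨a, ha, b, hb, hab, k, hk, rfl⟩
  · refine (hf2 _ _).2 ⟨(hPA' _).2 ⟨hM.pairing _ (hM.trans _ hA _ ha) _ (hM.trans _ hA _ hb), ?_⟩,
      ZFSet.mem_singleton.2 rfl, a, ha, b, hb, hab, rfl⟩
    intro w hw
    rcases ZFSet.mem_pair.1 hw with rfl | rfl
    · exact ha
    · exact hb
  · exact ZFSet.mem_singleton.1 ((hf2 _ _).1 hk).2.1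

theorem not_crt : ¬ CRT (sys.Ms π) (π.val AN) := by
  intro hc
  obtain ⟨C, hC, f, hf, hcol⟩ := exists_col h
  obtain ⟨Y, hY, hYA, hYi, L, hL, hYL, -⟩ := hc C hC f hf hcol
  exact no_order h hY hYA hYi hL hYL

end

theorem exists_model : ∃ M : Set ZFSet.{0}, M.Countable ∧ IsZF M ∧ ∃ X ∈ M, ¬ CRT M X ∧
    ∀ n, RT M n X := by
  obtain ⟨π, r, h⟩ := exists_good
  exact ⟨_, (π.cnt.mono fun _ h => h.1).image _, isZF h, _, AN_mem h, not_crt h, rt h⟩

end Pool.Agent.K7.H48.AF
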