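import Pool.Agent.K7.H48.AF.Sp

/-!
# Names

Adapted from the starting file `R602/RC/Nam.lean`.
-/

set_option autoImplicit false
set_option linter.unusedSectionVars false
set_option linter.unusedVariables false

namespace Pool.Agent.K7.H48.AF

open Pool.Agent.W868 Pool.Agent.W868.PName Pool.Agent.R598.SY
open ZFSet (pair)

/-! ### Moving the generic point -/

/-- The point is generic. -/
structure Gen (x : X) : Prop where
  g1 : ∀ (i : ℕ) (s : Finset (ℕ × Bool)), (∃ r : ℕ → Bool, ∀ c ∈ s, r c.1 = c.2) →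
    ∀ k, ∃ j ≥ k, ∀ c ∈ s, x (i, j) c.1 = c.2
  g2 : ∀ a b : K, a ≠ b → ∃ n, x a n ≠ x b n

theorem bl_inj (g : G) {i j : ℕ} (h : bl g i = bl g j) : i = j := by
  obtain ⟨τ, h1⟩ := bl_perm g
  rw [h1, h1] at h
  exact τ.injective h

theorem adj {x : X} (hx : Gen x) (g0 : G) (E : Finset K) (w : Bc) (y : X) (hy : y ∈ cyl w)
    (hF : ∀ c ∈ w, c.1 ∈ E → x (g0.1 c.1) c.2.1 = c.2.2) :
    ∃ g : G, (∀ a ∈ E, g.1 a = g0.1 a) ∧ (∀ i, bl g i = bl g0 i) ∧ pb g x ∈ cyl w := by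
  classical
  have key : ∀ L : Finset K, ∃ h : Equiv.Perm K, (∀ a, (h a).1 = a.1) ∧ (∀ a ∈ E, h a = a) ∧
      ∀ c ∈ w, c.1 ∈ L → x (g0.1 (h c.1)) c.2.1 = c.2.2 := by
    intro L
    induction L using Finset.induction_on with
    | empty =>
      exact ⟨1, fun _ => rfl, fun _ _ => rfl, fun c _ h => absurd h (Finset.notMem_empty _)⟩
    | insert a0 L ha0 ih =>
      obtain ⟨h, h1, h2, h3⟩ := ih
      by_cases haE : a0 ∈ E
      · refine ⟨h, h1, h2, fun c hc hcL => ?_⟩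
        rcases Finset.mem_insert.1 hcL with e | hcL
        · rw [h2 c.1 (by rwa [e])]
          exact hF c hc (by rwa [e])
        · exact h3 c hc hcL
      · let s : Finset (ℕ × Bool) := (w.filter fun c => c.1 = a0).image fun c => c.2
        have hs : ∃ r : ℕ → Bool, ∀ c ∈ s, r c.1 = c.2 := ⟨y a0, fun c hc => by
          obtain ⟨d, hd, rfl⟩ := Finset.mem_image.1 hc
          obtain ⟨hd1, hd2⟩ := Finset.mem_filter.1 hd
          have h4 := hy d hd1
          rwa [hd2] at h4⟩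
        obtain ⟨N, hN⟩ := (((E ∪ L.image h).image g0.1).image Prod.snd).finite_toSet.bddAbove
        obtain ⟨j, hj, hjs⟩ := hx.g1 (bl g0 a0.1) s hs (N + 1)
        obtain ⟨a', e'⟩ : ∃ a', g0.1 a' = (bl g0 a0.1, j) := ⟨g0.1.symm _, g0.1.apply_symm_apply _⟩
        have hb' : a'.1 = a0.1 := by
          have h4 := fst_eq g0 a'
          rw [e'] at h4
          exact (bl_inj g0 h4).symm
        have hout : a' ∉ E ∪ L.image h := by
          intro hm
          have h4 : j ∈ ((E ∪ L.image h).image g0.1).image Prod.snd :=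
            Finset.mem_image.2 ⟨g0.1 a', Finset.mem_image_of_mem _ hm, by rw [e']⟩
          have h5 := hN (Finset.mem_coe.2 h4)
          omega
        rw [Finset.mem_union, not_or] at hout
        have hst : ∀ b, h b ≠ h a0 → h b ≠ a' → (Equiv.swap (h a0) a' * h) b = h b :=
          fun b h4 h5 => Equiv.swap_apply_of_ne_of_ne h4 h5
        have h0 : (Equiv.swap (h a0) a' * h) a0 = a' := Equiv.swap_apply_left _ _
        have hne : ∀ b ∈ E, (Equiv.swap (h a0) a' * h) b = b := fun b hb => by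
          have h4 := hst b (fun e => haE ((h.injective e) ▸ hb))
            (fun e => hout.1 (by rw [← e, h2 b hb]; exact hb))
          rw [h4, h2 b hb]
        refine ⟨Equiv.swap (h a0) a' * h, fun b => ?_, hne, fun c hc hcL => ?_⟩
        · by_cases hb1 : h b = h a0
          · rw [h.injective hb1, h0, hb']
          · by_cases hb2 : h b = a'
            · have h4 : (Equiv.swap (h a0) a' * h) b = h a0 := by
                change Equiv.swap (h a0) a' (h b) = _
                rw [hb2, Equiv.swap_apply_right]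
              rw [h4, h1, ← hb', ← hb2, h1]
            · rw [hst b hb1 hb2, h1]
        · rcases Finset.mem_insert.1 hcL with e | hcL
          · rw [e, h0, e']
            exact hjs c.2 (Finset.mem_image.2 ⟨c, Finset.mem_filter.2 ⟨hc, e⟩, rfl⟩)
          · have hne0 : c.1 ≠ a0 := fun e => ha0 (e ▸ hcL)
            rw [hst c.1 (fun e => hne0 (h.injective e)) fun e => hout.2 (Finset.mem_image.2
              ⟨c.1, hcL, e⟩)]
            exact h3 c hc hcL
  obtain ⟨h, h1, h2, h3⟩ := key (w.image fun c => c.1)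
  refine ⟨⟨g0.1 * h, ?_⟩, fun a ha => ?_, fun i => ?_, fun c hc => ?_⟩
  · obtain ⟨τ, h4⟩ := g0.2
    refine ⟨τ, fun a => ?_⟩
    change (g0.1 (h a)).1 = τ a.1
    rw [h4, h1]
  · change g0.1 (h a) = g0.1 a
    rw [h2 a ha]
  · change (g0.1 (h (i, 0))).1 = bl g0 i
    rw [fst_eq, h1]
  · exact h3 c hc (Finset.mem_image_of_mem _ hc)

theorem move {x : X} (hx : Gen x) {O : Set X} (hO : Op O) (hxO : x ∈ O) : ∃ w : Bc, x ∈ cyl w ∧
    ∀ (g0 : G) (E : Finset K), (∀ c ∈ w, c.1 ∈ E → x (g0.1 c.1) c.2.1 = c.2.2) →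
      ∃ g : G, (∀ a ∈ E, g.1 a = g0.1 a) ∧ (∀ i, bl g i = bl g0 i) ∧ x ∈ im g O := by
  obtain ⟨w, h1, h2⟩ := hO x hxO
  refine ⟨w, h1, fun g0 E h => ?_⟩
  obtain ⟨g, h3, h4, h5⟩ := adj hx g0 E w x h1 h
  exact ⟨g, h3, h4, h2 h5⟩

theorem act_feq {S : Finset ℕ} {E : Finset K} {v : PName P} (hv : sys.Fix (fixE S E) v) {g g' : G}
    (hb : ∀ i ∈ S, bl g i = bl g' i) (he : ∀ a ∈ E, g.1 a = g'.1 a) (p : P) :
    Feq (act (sys.ac g) v) (act (sys.ac g') v) p := by
  have h1 : g⁻¹ * g' ∈ fixE S E := by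
    refine ⟨fun i hi => ?_, fun a ha => ?_⟩
    · rw [bl_mul, ← hb i hi, ← bl_mul, inv_mul_cancel]
      rfl
    · change g.1.symm (g'.1 a) = a
      rw [← he a ha, Equiv.symm_apply_apply]
  have h2 := hv (g⁻¹ * g') h1 (mv g⁻¹ p)
  have h3 := feq_act' (e := sys.ac g) h2
  have e1 : act (sys.ac g) (act (sys.ac (g⁻¹ * g' : G)) v) = act (sys.ac g') v := by
    rw [← act_mul]
    congr 1
    have h4 : sys.ac g * sys.ac (g⁻¹ * g' : G) = sys.ac (g * (g⁻¹ * g') : G) :=
      (acH.map_mul g (g⁻¹ * g')).symm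
    rw [h4, mul_inv_cancel_left]
  have e2 : (sys.ac g) (mv g⁻¹ p) = p := mv_inv_mv g p
  rw [e2] at h3
  have e3 : act (sys.ac g) (act (sys.ac (g⁻¹ * g' : sys.G)) v) = act (sys.ac g') v := e1
  exact (e3 ▸ h3).symm

theorem act_act (g h : G) (v : PName P) : act (sys.ac g) (act (sys.ac h) v) =
    act (sys.ac (g * h : G)) v :=
  (act_mul _ _ _).symm.trans (congrArg (fun e => act e v) (acH.map_mul g h).symm)

theorem act_id (v : PName P) : act (sys.ac (1 : G)) v = v := by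
  have e : sys.ac (1 : G) = 1 := acH.map_one
  rw [e, act_one]

theorem act_feq' {v w : PName P} (h : ∀ p, Feq v w p) (g : G) (p : P) :
    Feq (act (sys.ac g) v) (act (sys.ac g) w) p := by
  have h3 := feq_act' (e := sys.ac g) (h (mv g⁻¹ p))
  have e2 : (sys.ac g) (mv g⁻¹ p) = p := mv_inv_mv g p
  rwa [e2] at h3

theorem fix_fN' {S : Finset ℕ} {E : Finset K} {ι : Type} {z : ι → PName P} {O : ι → Set X}
    (h : ∀ g : G, g ∈ fixE S E → ∀ i, ∃ i', (∀ p, Feq (act (sys.ac g) (z i)) (z i') p) ∧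
      im g (O i) = O i') (g : G) (hg : g ∈ fixE S E) (p : P) :
    Feq (act (sys.ac g) (fN ι z O)) (fN ι z O) p := by
  rw [feq_iff']
  constructor
  · intro a c ha q _ hqc
    obtain ⟨i, h1, rfl⟩ := el_fN.1 (el_act_fN.1 ha)
    obtain ⟨i', h2, h3⟩ := h g hg i
    refine ⟨q, le_rfl, z i', q, el_fN.2 ⟨i', ?_, rfl⟩, le_rfl, h2 q⟩
    rw [← h3]
    exact (le_sub hqc).trans h1
  · intro a c ha q _ hqc
    obtain ⟨i, h1, rfl⟩ := el_fN.1 ha
    obtain ⟨i', h2, h3⟩ := h g⁻¹ ((fixE S E).inv_mem hg) i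
    refine ⟨q, le_rfl, _, q, el_act_fN.2 (el_fN.2 ⟨i', ?_, rfl⟩), le_rfl, ?_⟩
    · intro y hy
      change pb g y ∈ O i'
      rw [← h3]
      change pb g⁻¹ (pb g y) ∈ O i
      rw [pb_inv']
      exact h1 (hqc hy)
    · have h4 := act_feq' (fun p => (h2 p).symm) g q
      have e : act (sys.ac g) (act (sys.ac (g⁻¹ : G)) (z i)) = z i := by
        rw [act_act, mul_inv_cancel, act_id]
      rw [e] at h4
      exact h4

theorem fix_fN {S : Finset ℕ} {E : Finset K} {ι : Type} {z : ι → PName P} {O : ι → Set X}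
    (h : ∀ g : G, g ∈ fixE S E → ∀ i, ∃ i', (∀ p, Feq (act (sys.ac g) (z i)) (z i') p) ∧
      im g (O i) = O i') : sys.Fix (fixE S E) (fN ι z O) := fun g hg p => fix_fN' h g hg p

theorem hs_fN {S : Finset ℕ} {E : Finset K} {ι : Type} {z : ι → PName P} {O : ι → Set X}
    (hf : sys.Fix (fixE S E) (fN ι z O)) (hz : ∀ i, sys.HS (z i)) : sys.HS (fN ι z O) := by
  refine sys.hs_iff.2 ⟨⟨_, ⟨S, E, rfl⟩, hf⟩, fun y c hy => ?_⟩
  obtain ⟨i, -, rfl⟩ := el_fN.1 hy
  exact hz i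

/-! ### The reals and the atoms -/

/-- The name for the real `a`. -/
noncomputable def xN (a : K) : PName P := fN ℕ (fun n => check (nat n)) fun n => Co a n true

theorem act_xN (g : G) (a : K) (p : P) : Feq (act (sys.ac g) (xN a)) (xN (g.1 a)) p := by
  refine feq_trans (feq_of_el fun y c => el_act_fN) (feq_fN (fun k => ?_) fun k x _ => Iff.rfl)
  rw [act_check (sys.top g)]
  exact Feq.refl _ _

theorem hs_xN (a : K) : sys.HS (xN a) := by
  refine sys.hs_iff.2 ⟨⟨_, ⟨∅, {a}, rfl⟩, fun g hg p => ?_⟩, fun y c hy => ?_⟩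
  · have h1 : (g : G).1 a = a := hg.2 a (Finset.mem_singleton_self _)
    have h2 := act_xN g a p
    rwa [h1] at h2
  · obtain ⟨k, -, rfl⟩ := el_fN.1 hy
    exact sys.hs_check _

/-- The name for the atom `i`. -/
noncomputable def bN (i : ℕ) : PName P := fN ℕ (fun j => xN (i, j)) fun _ => Set.univ

theorem act_bN (g : G) (i : ℕ) (p : P) : Feq (act (sys.ac g) (bN i)) (bN (bl g i)) p := by
  rw [feq_iff']
  constructor
  · intro a c ha q _ hqc
    obtain ⟨j, h1, rfl⟩ := el_fN.1 (el_act_fN.1 ha)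
    refine ⟨q, le_rfl, _, q, el_fN.2 ⟨(g.1 (i, j)).2, Set.subset_univ _, rfl⟩, le_rfl, ?_⟩
    have h2 := act_xN g (i, j) q
    have h3 : g.1 (i, j) = (bl g i, (g.1 (i, j)).2) := Prod.ext (fst_eq g (i, j)) rfl
    rwa [h3] at h2
  · intro a c ha q _ hqc
    obtain ⟨j, h1, rfl⟩ := el_fN.1 ha
    obtain ⟨b, hb⟩ : ∃ b, g.1 b = (bl g i, j) := ⟨g.1.symm _, g.1.apply_symm_apply _⟩
    have h2 : b = (i, b.2) := by
      refine Prod.ext (bl_inj g ?_) rfl
      have h3 := fst_eq g b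
      rw [hb] at h3
      exact h3.symm
    refine ⟨q, le_rfl, _, q, el_act_fN.2 (el_fN.2 ⟨b.2, Set.subset_univ _, rfl⟩), le_rfl, ?_⟩
    have h4 := act_xN g (i, b.2) q
    rw [← h2, hb] at h4
    rw [← h2]
    exact h4

theorem hs_bN (i : ℕ) : sys.HS (bN i) := by
  refine sys.hs_iff.2 ⟨⟨_, ⟨{i}, ∅, rfl⟩, fun g hg p => ?_⟩, fun y c hy => ?_⟩
  · have h1 : bl (g : G) i = i := hg.1 i (Finset.mem_singleton_self _)
    have h2 := act_bN g i p
    rwa [h1] at h2
  · obtain ⟨k, -, rfl⟩ := el_fN.1 hy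
    exact hs_xN _

/-- The name for the set of the atoms. -/
noncomputable def AN : PName P := fN ℕ bN fun _ => Set.univ

theorem fix_AN : sys.Fix (fixE ∅ ∅) AN := fix_fN fun g _ i => ⟨bl g i, act_bN g i, rfl⟩

theorem hs_AN : sys.HS AN := hs_fN fix_AN hs_bN

/-- The lift of a permutation of the blocks. -/
def lf (τ : Equiv.Perm ℕ) : G :=
  ⟨{ toFun := fun a => (τ a.1, a.2)
     invFun := fun a => (τ.symm a.1, a.2)
     left_inv := fun a => Prod.ext (τ.symm_apply_apply _) rfl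
     right_inv := fun a => Prod.ext (τ.apply_symm_apply _) rfl }, τ, fun _ => rfl⟩

theorem lf_apply (τ : Equiv.Perm ℕ) (a : K) : (lf τ).1 a = (τ a.1, a.2) := rfl

theorem bl_lf (τ : Equiv.Perm ℕ) (i : ℕ) : bl (lf τ) i = τ i := rfl

/-- The name for the set of the atoms outside `S`. -/
noncomputable def YN (S : Finset ℕ) : PName P := fN {i // i ∉ S} (fun i => bN i.1) fun _ => Set.univ

theorem fix_YN (S : Finset ℕ) : sys.Fix (fixE S ∅) (YN S) := by
  refine fix_fN fun g hg i => ⟨⟨bl g i.1, fun hi => i.2 ?_⟩, act_bN g i.1, rfl⟩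
  have h1 := hg.1 _ hi
  have h2 := bl_inj g h1
  rwa [h2] at hi

theorem hs_YN (S : Finset ℕ) : sys.HS (YN S) := hs_fN (fix_YN S) fun _ => hs_bN _

end Pool.Agent.K7.H48.AF
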